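import Pool.Agent.Lib.MP_0a5adf_nt.TP.Interfaces

/-!
# Project TAO+: TOP
-/

set_option autoImplicit false

namespace Pool.Agent.Lib.MP_0a5adf_nt.H50

open Finset Pool.Agent.Lib.MP_0a5adf_nt.TP

theorem f_nonneg (n c : ℕ) (X : ZMod (3 ^ n)) : 0 ≤ f n c X := by
  unfold f
  positivity

theorem phi_nonneg (m : ℕ) (M : ℤ) : 0 ≤ Phi m M := by
  unfold Phi
  exact mul_nonneg (by positivity) (sum_nonneg fun c _ => f_nonneg _ _ _)

theorem psi_mono (d : Bool) (B : Set ℕ) (m k : ℕ) {l l' : ℕ} (h : l ≤ l') :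
    Psi d B m k l ≤ Psi d B m k l' := by
  classical
  unfold Psi
  refine sum_le_sum_of_subset_of_nonneg (filter_subset_filter _ ?_) fun M _ _ =>
    mul_nonneg (by positivity) (phi_nonneg _ _)
  exact Ico_subset_Ico_right (Nat.pow_le_pow_right (by norm_num) (by omega))

theorem psi_add (d : Bool) (B : Set ℕ) (m k l l' : ℕ) :
    Psi d B m k (l + l') = Psi d B m k l + Psi d B m (k + l) l' := by
  classical
  unfold Psi
  have h1 : blk k (l + l') = blk k l ∪ blk (k + l) l' := by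
    unfold blk
    rw [← add_assoc]
    exact (Ico_union_Ico_eq_Ico (Nat.pow_le_pow_right (by norm_num) (by omega))
      (Nat.pow_le_pow_right (by norm_num) (by omega))).symm
  have h2 : Disjoint (blk k l) (blk (k + l) l') := by
    unfold blk
    exact Ico_disjoint_Ico_consecutive _ _ _
  rw [h1, filter_union, sum_union (disjoint_filter_filter h2)]

theorem psi_mul (d : Bool) (B : Set ℕ) (m k l J : ℕ) :
    Psi d B m k (J * l) = ∑ j ∈ range J, Psi d B m (k + j * l) l := by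
  induction J with
  | zero => simp [Psi, blk]
  | succ J ih => rw [add_mul, one_mul, psi_add, ih, sum_range_succ]

theorem alog_nonneg (B : Set ℕ) (a l : ℕ) : 0 ≤ Alog B a l := by
  unfold Alog
  exact sum_nonneg fun N _ => by positivity

theorem inv_mono {d : Bool} {B : Set ℕ} {lo lo' : ℕ} {H H' : ℝ} (h : Inv d B lo H)
    (h1 : lo ≤ lo') (h2 : H' ≤ H) : Inv d B lo' H' := fun n h3 h4 =>
  h n ((Nat.pow_le_pow_right (by norm_num) h1).trans h3) (h4.trans_le h2)

theorem th_lower : (1.58 : ℝ) ≤ th := by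
  have h1 : (158 : ℝ) ≤ 100 * th := by
    have h2 : (100 : ℝ) * th = Real.logb 2 ((3 : ℝ) ^ 100) := by
      rw [Real.logb_pow]
      rfl
    rw [h2, Real.le_logb_iff_rpow_le (by norm_num) (by positivity)]
    have h3 : (2 : ℝ) ^ (158 : ℝ) = 2 ^ (158 : ℕ) := by
      rw [← Real.rpow_natCast]
      norm_num
    rw [h3]
    norm_num
  linarith

theorem th_upper : th ≤ (1.59 : ℝ) := by
  have h1 : 100 * th ≤ (159 : ℝ) := by
    have h2 : (100 : ℝ) * th = Real.logb 2 ((3 : ℝ) ^ 100) := by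
      rw [Real.logb_pow]
      rfl
    rw [h2, Real.logb_le_iff_le_rpow (by norm_num) (by positivity)]
    have h3 : (2 : ℝ) ^ (159 : ℝ) = 2 ^ (159 : ℕ) := by
      rw [← Real.rpow_natCast]
      norm_num
    rw [h3]
    norm_num
  linarith

theorem mu_bounds : (0.205 : ℝ) ≤ mu ∧ mu ≤ 0.21 := by
  unfold mu
  have h1 := th_lower
  have h2 := th_upper
  constructor <;> linarith

/-- several shifts -/
theorem shifts {C : ℝ} {x₀ : ℕ} (hC : 0 < C)
    (hS : ∀ (d : Bool) (x a a' l h : ℕ) (B : Set ℕ), x₀ ≤ x → x ≤ a →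
    x ≤ a' → 8 * a ≤ 9 * x → 8 * a' ≤ 9 * x → 10 * l ≤ x → a + l + x / 100 ≤ h →
    a' + l + x / 100 ≤ h → Inv d B (9 * x / 10) (2 ^ h) →
    |Alog B a l - Alog B a' l| ≤ C * (x : ℝ) ^ (3 / 5 : ℝ))
    (d : Bool) (a l h : ℕ) (B : Set ℕ) (hah : a + l + a / 100 ≤ h) (n : ℕ) :
    ∀ x : ℕ, x₀ ≤ x → 72 ≤ x → x ≤ a → 9 ^ n * a ≤ 10 ^ n * x → 10 * l ≤ x →
      Inv d B (9 * x / 10) (2 ^ h) →
      |Alog B a l - Alog B x l| ≤ n * (C * (a : ℝ) ^ (3 / 5 : ℝ)) := by
  induction n with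
  | zero =>
    intro x _ _ hxa h1 _ _
    have h2 : x = a := by
      simp only [pow_zero, one_mul] at h1
      omega
    rw [h2]
    simp
  | succ n ih =>
    intro x h1 h2 h3 h4 h5 h6
    have hxa : (x : ℝ) ^ (3 / 5 : ℝ) ≤ (a : ℝ) ^ (3 / 5 : ℝ) :=
      Real.rpow_le_rpow (by positivity) (by exact_mod_cast h3) (by norm_num)
    have hpos : 0 ≤ C * (a : ℝ) ^ (3 / 5 : ℝ) := by positivity
    rcases le_or_gt (8 * a) (9 * x) with h7 | h7
    · have h8 := hS d x a x l h B h1 h3 le_rfl h7 (by omega) h5 (by omega) (by omega) h6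
      refine h8.trans ?_
      push_cast
      have : 0 ≤ (n : ℝ) * (C * (a : ℝ) ^ (3 / 5 : ℝ)) := by positivity
      nlinarith [mul_le_mul_of_nonneg_left hxa hC.le]
    · set x' : ℕ := 9 * x / 8 with hx'
      have h9 : 10 * x ≤ 9 * x' := by omega
      have h10 : x' ≤ a := by omega
      have h11 : x ≤ x' := by omega
      have h12 : 9 ^ n * a ≤ 10 ^ n * x' := by
        have h13 : 9 * (9 ^ n * a) ≤ 9 * (10 ^ n * x') := by
          calc 9 * (9 ^ n * a) = 9 ^ (n + 1) * a := by ring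
            _ ≤ 10 ^ (n + 1) * x := h4
            _ = 10 ^ n * (10 * x) := by ring
            _ ≤ 10 ^ n * (9 * x') := Nat.mul_le_mul_left _ h9
            _ = 9 * (10 ^ n * x') := by ring
        exact Nat.le_of_mul_le_mul_left h13 (by norm_num)
      have h14 := ih x' (h1.trans h11) (h2.trans h11) h10 h12 (h5.trans h11)
        (inv_mono h6 (by omega) le_rfl)
      have h15 := hS d x x' x l h B h1 h11 le_rfl (by omega) (by omega) h5 (by omega)
        (by omega) h6
      have h16 : |Alog B a l - Alog B x l| ≤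
          |Alog B a l - Alog B x' l| + |Alog B x' l - Alog B x l| := abs_sub_le _ _ _
      push_cast
      nlinarith [mul_le_mul_of_nonneg_left hxa hC.le]

theorem rpow_le_div {L : ℕ} (hL : 100000 ≤ L) : (L : ℝ) ^ (3 / 5 : ℝ) ≤ L / 100 := by
  have hL' : (100000 : ℝ) ≤ L := by exact_mod_cast hL
  have h0 : (0 : ℝ) < L := by linarith
  have h1 : (100 : ℝ) ≤ (L : ℝ) ^ (2 / 5 : ℝ) := by
    have h2 : (100 : ℝ) = (100000 : ℝ) ^ (2 / 5 : ℝ) := by
      rw [show (100000 : ℝ) = (10 : ℝ) ^ (5 : ℝ) by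
        rw [show (5 : ℝ) = ((5 : ℕ) : ℝ) by norm_num, Real.rpow_natCast]
        norm_num, ← Real.rpow_mul (by norm_num),
        show (5 : ℝ) * (2 / 5) = ((2 : ℕ) : ℝ) by norm_num, Real.rpow_natCast]
      norm_num
    rw [h2]
    exact Real.rpow_le_rpow (by norm_num) hL' (by norm_num)
  have h3 : (L : ℝ) ^ (3 / 5 : ℝ) * (L : ℝ) ^ (2 / 5 : ℝ) = L := by
    rw [← Real.rpow_add h0]
    norm_num
  have h4 : 0 ≤ (L : ℝ) ^ (3 / 5 : ℝ) := by positivity
  nlinarith

theorem dev_le {K L : ℕ} (hKL : K ≤ L) : (dev K : ℝ) ≤ (L : ℝ) ^ (3 / 5 : ℝ) + 1 := by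
  unfold dev
  have h1 : (K : ℝ) ^ (3 / 5 : ℝ) ≤ (L : ℝ) ^ (3 / 5 : ℝ) :=
    Real.rpow_le_rpow (by positivity) (by exact_mod_cast hKL) (by norm_num)
  exact (Nat.ceil_lt_add_one (by positivity)).le.trans (by linarith)

theorem top (hLW : LogWinStatement) (hSh : ShiftStatement) : TopStatement := by
  obtain ⟨C1, K₀, hC1, hLW⟩ := hLW
  obtain ⟨C2, x₀, hC2, hSh⟩ := hSh
  refine ⟨115 * (1 + 8 * C2 + 2 * C1), 100000 + 2 * K₀ + 3 * x₀ + 1, by positivity, ?_⟩
  intro d L p B hL hp1 hp2 hInv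
  have hL1 : 100000 ≤ L := by omega
  have hLK : 2 * K₀ ≤ L := by omega
  have hLx : 3 * x₀ ≤ L := by omega
  set w : ℕ := 2 ^ p with hw
  have hw1 : 1 ≤ w := Nat.one_le_two_pow
  have e10 : 2 ^ (p + 10) = 1024 * w := by rw [hw, pow_add]; ring
  have e11 : 2 ^ (p + 11) = 2048 * w := by rw [hw, pow_add]; ring
  have e9 : 2 ^ (p + 9) = 512 * w := by rw [hw, pow_add]; ring
  rw [e10] at hp1
  rw [e11] at hp2
  rw [e9] at hInv
  rw [e10]
  have hLr : (100000 : ℝ) ≤ L := by exact_mod_cast hL1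
  set R : ℝ := (L : ℝ) ^ (3 / 5 : ℝ) with hR
  have hR1 : R ≤ L / 100 := rpow_le_div hL1
  have hR0 : 1 ≤ R := Real.one_le_rpow (by linarith) (by norm_num)
  set K : ℕ := 84 * L / 100 with hK
  set l₀ : ℕ := 5 * L / 100 with hl₀
  set m : ℕ := L / 20 with hm
  set i : ℕ := 3 * L / 10 with hi
  have hKL : K ≤ L := by omega
  have hdev : (dev K : ℝ) ≤ R + 1 := dev_le hKL
  have hdevn : 100 * dev K ≤ L + 100 := by
    have h1 : (100 : ℝ) * dev K ≤ L + 100 := by linarith
    exact_mod_cast h1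
  obtain ⟨hmu1, hmu2⟩ := mu_bounds
  set J : ℕ := l₀ / w + 1 with hJ
  have hJle : J ≤ 115 := by
    have h1 : l₀ / w < 115 := by
      rw [Nat.div_lt_iff_lt_mul (by omega)]
      omega
    omega
  have hcov : l₀ ≤ J * w := by
    have h1 := Nat.lt_div_mul_add (a := l₀) (b := w) (by omega)
    rw [hJ, add_mul, one_mul]
    omega
  -- one window
  have hwin : ∀ j ∈ range J, Psi d B m (K + j * w) w ≤
      Alog B (1024 * w) w + (8 * C2 + 2 * C1) * R := by
    intro j hj
    have hj1 : j * w ≤ l₀ := by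
      have h1 : j ≤ l₀ / w := by
        have := mem_range.1 hj
        omega
      exact (Nat.mul_le_mul_right _ h1).trans (Nat.div_mul_le_self _ _)
    set k : ℕ := K + j * w with hk
    set a : ℕ := ⌈(k : ℝ) + mu * i⌉₊ with ha
    have hir : (i : ℝ) ≤ 3 * L / 10 := by
      rw [le_div_iff₀ (by norm_num)]
      have : i * 10 ≤ 3 * L := by omega
      exact_mod_cast this
    have hir2 : (3 * (L : ℝ) - 10) / 10 ≤ i := by
      rw [div_le_iff₀ (by norm_num)]
      have : 3 * L ≤ i * 10 + 10 := by omega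
      have h2 : (3 * (L : ℝ)) ≤ i * 10 + 10 := by exact_mod_cast this
      linarith
    have hmi0 : 0 ≤ mu * i := by
      have : (0 : ℝ) ≤ i := by positivity
      nlinarith
    have hmi1 : mu * i ≤ 0.063 * L := by
      have h1 : mu * i ≤ 0.21 * i := mul_le_mul_of_nonneg_right hmu2 (by positivity)
      linarith
    have hmi2 : 0.0615 * L - 1 ≤ mu * i := by
      have h1 : 0.205 * (i : ℝ) ≤ mu * i := mul_le_mul_of_nonneg_right hmu1 (by positivity)
      linarith
    have ha1 : (k : ℝ) + mu * i ≤ a := Nat.le_ceil _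
    have ha2 : (a : ℝ) < k + mu * i + 1 := Nat.ceil_lt_add_one (by positivity)
    have hkr1 : (k : ℝ) ≤ 0.89 * L := by
      have h1 : 100 * k ≤ 89 * L := by omega
      have h2 : (100 : ℝ) * k ≤ 89 * L := by exact_mod_cast h1
      linarith
    have hkr2 : 0.84 * (L : ℝ) - 1 ≤ k := by
      have h1 : 84 * L ≤ 100 * k + 100 := by omega
      have h2 : (84 : ℝ) * L ≤ 100 * k + 100 := by exact_mod_cast h1
      linarith
    have har1 : (a : ℝ) ≤ 0.953 * L + 1 := by linarith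
    have har2 : 0.9 * (L : ℝ) ≤ a := by linarith
    have han1 : 1000 * a ≤ 953 * L + 1000 := by
      have h1 : (1000 : ℝ) * a ≤ 953 * L + 1000 := by linarith
      exact_mod_cast h1
    have han2 : 9 * L ≤ 10 * a := by
      have h1 : (9 : ℝ) * L ≤ 10 * a := by linarith
      exact_mod_cast h1
    have hInv1 : Inv d B (k - 2 * dev K) (2 ^ (a + w + 2 * dev K)) := by
      refine inv_mono hInv (by omega) ?_
      exact pow_le_pow_right₀ (by norm_num) (by omega)
    have h1 := hLW d K a w i m k B (by omega) (by omega) (by omega) (by omega)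
      (by rw [abs_le]; constructor <;> linarith) (by omega) (by omega) (by omega) hInv1
    have h2 : Psi d B m k w ≤ Alog B a w + C1 * dev K := by
      have := (abs_le.1 h1).1
      linarith
    have h3 := shifts hC2 hSh d a w L B (by omega) 8 (1024 * w) (by omega) (by omega) (by omega)
      (by norm_num; omega) (by omega) (inv_mono hInv (by omega) le_rfl)
    have h4 : Alog B a w ≤ Alog B (1024 * w) w + 8 * (C2 * (a : ℝ) ^ (3 / 5 : ℝ)) := by
      have := (abs_le.1 h3).2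
      push_cast at this
      linarith
    have h5 : (a : ℝ) ^ (3 / 5 : ℝ) ≤ R :=
      Real.rpow_le_rpow (by positivity) (by linarith) (by norm_num)
    have h6 : C2 * (a : ℝ) ^ (3 / 5 : ℝ) ≤ C2 * R := mul_le_mul_of_nonneg_left h5 hC2.le
    have h7 : C1 * dev K ≤ C1 * (2 * R) := mul_le_mul_of_nonneg_left (by linarith) hC1.le
    linarith
  have hsum : Psi d B m K l₀ ≤ J * (Alog B (1024 * w) w + (8 * C2 + 2 * C1) * R) := by
    calc Psi d B m K l₀ ≤ Psi d B m K (J * w) := psi_mono d B m K hcov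
      _ = ∑ j ∈ range J, Psi d B m (K + j * w) w := psi_mul d B m K w J
      _ ≤ ∑ j ∈ range J, (Alog B (1024 * w) w + (8 * C2 + 2 * C1) * R) := sum_le_sum hwin
      _ = J * (Alog B (1024 * w) w + (8 * C2 + 2 * C1) * R) := by
          rw [sum_const, card_range, nsmul_eq_mul]
  have hA := alog_nonneg B (1024 * w) w
  have hX : 0 ≤ Alog B (1024 * w) w + (8 * C2 + 2 * C1) * R := by positivity
  have hJr : (J : ℝ) ≤ 115 := by exact_mod_cast hJle
  calc Psi d B m K l₀ ≤ J * (Alog B (1024 * w) w + (8 * C2 + 2 * C1) * R) := hsum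
    _ ≤ 115 * (Alog B (1024 * w) w + (8 * C2 + 2 * C1) * R) :=
        mul_le_mul_of_nonneg_right hJr hX
    _ ≤ 115 * (1 + 8 * C2 + 2 * C1) * (Alog B (1024 * w) w + R) := by
        have h1 : 0 ≤ (8 * C2 + 2 * C1) * Alog B (1024 * w) w := by positivity
        nlinarith

end Pool.Agent.Lib.MP_0a5adf_nt.H50
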